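import Pool.Agent.U216.Delt.Param

/-!
The three singular points of the deltoid, and the local connectedness of the curve there.
-/

set_option autoImplicit false

namespace Pool.Agent.U216.Delt

open Set Filter Topology

/-- distance squared from `(3, 3)` -/
noncomputable def G (t : ℂ) : ℝ := ‖phi t 0 - 3‖ ^ 2 + ‖phi t 1 - 3‖ ^ 2

lemma normsq (z : ℂ) : ‖z‖ ^ 2 = z.re ^ 2 + z.im ^ 2 := by
  rw [← Complex.normSq_eq_norm_sq, Complex.normSq_apply]; ring

lemma ineq_a (s : ℝ) (hs : 0 ≤ s) (hs1 : s ≤ 1) (z : ℂ) (hz : ‖z‖ ≤ 1) :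
    s * ‖3 + s * z‖ ≤ ‖3 + z‖ := by
  have h1 : z.re ^ 2 + z.im ^ 2 ≤ 1 := by
    rw [← normsq]; nlinarith [norm_nonneg z]
  have h2 : (s * ‖3 + s * z‖) ^ 2 ≤ ‖3 + z‖ ^ 2 := by
    rw [mul_pow, normsq, normsq]
    simp only [Complex.add_re, Complex.add_im, Complex.mul_re, Complex.mul_im, Complex.ofReal_re,
      Complex.ofReal_im, Complex.re_ofNat, Complex.im_ofNat]
    have hu : -1 ≤ z.re := by nlinarith [sq_nonneg z.im]
    have e : (3 + z.re) ^ 2 + (0 + z.im) ^ 2 -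
        s ^ 2 * ((3 + (s * z.re - 0 * z.im)) ^ 2 + (0 + (s * z.im + 0 * z.re)) ^ 2) =
        (1 - s) * (9 * (1 + s) + 6 * z.re * (1 + s + s ^ 2) +
          (z.re ^ 2 + z.im ^ 2) * (1 + s) * (1 + s ^ 2)) := by ring
    have e2 : 0 ≤ 9 * (1 + s) + 6 * z.re * (1 + s + s ^ 2) := by
      nlinarith [mul_nonneg (sub_nonneg.2 hs1) hs, mul_nonneg (by linarith : 0 ≤ z.re + 1)
        (by positivity : 0 ≤ 1 + s + s ^ 2)]
    have e3 : 0 ≤ (z.re ^ 2 + z.im ^ 2) * (1 + s) * (1 + s ^ 2) := by positivity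
    have e4 : 0 ≤ (1 - s) * (9 * (1 + s) + 6 * z.re * (1 + s + s ^ 2) +
          (z.re ^ 2 + z.im ^ 2) * (1 + s) * (1 + s ^ 2)) :=
      mul_nonneg (by linarith) (by linarith)
    linarith
  exact (pow_le_pow_iff_left₀ (by positivity) (norm_nonneg _) two_ne_zero).1 h2

lemma ineq_b (s : ℝ) (_hs : 0 ≤ s) (hs1 : s ≤ 1) (z : ℂ) (hz : ‖z‖ ≤ 1 / 2) :
    s * ‖1 + z‖ ^ 2 ≤ ‖1 + s * z‖ ^ 2 := by
  have h1 : z.re ^ 2 + z.im ^ 2 ≤ 1 / 4 := by
    rw [← normsq]; nlinarith [norm_nonneg z]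
  rw [normsq, normsq]
  simp only [Complex.add_re, Complex.add_im, Complex.mul_re, Complex.mul_im, Complex.ofReal_re,
      Complex.ofReal_im, Complex.one_re, Complex.one_im]
  have e : (1 + (s * z.re - 0 * z.im)) ^ 2 + (0 + (s * z.im + 0 * z.re)) ^ 2 -
      s * ((1 + z.re) ^ 2 + (0 + z.im) ^ 2) = (1 - s) * (1 - s * (z.re ^ 2 + z.im ^ 2)) := by ring
  have e2 : s * (z.re ^ 2 + z.im ^ 2) ≤ 1 := by
    have : 0 ≤ z.re ^ 2 + z.im ^ 2 := by positivity
    nlinarith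
  have e4 : 0 ≤ (1 - s) * (1 - s * (z.re ^ 2 + z.im ^ 2)) :=
    mul_nonneg (by linarith) (by linarith)
  linarith

lemma ineq_c (s : ℝ) (hs : 0 ≤ s) (hs1 : s ≤ 1) (z : ℂ) (hz : ‖z‖ ≤ 1 / 2) :
    s * ‖1 + z‖ ≤ ‖1 + s * z‖ := by
  have h := ineq_b s hs hs1 z hz
  have h2 : (s * ‖1 + z‖) ^ 2 ≤ ‖1 + s * z‖ ^ 2 := by
    have : s ^ 2 * ‖1 + z‖ ^ 2 ≤ s * ‖1 + z‖ ^ 2 := by
      have h3 : 0 ≤ ‖1 + z‖ ^ 2 := by positivity
      have h4 : s ^ 2 ≤ s := by nlinarith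
      exact mul_le_mul_of_nonneg_right h4 h3
    rw [mul_pow]; linarith
  exact (pow_le_pow_iff_left₀ (by positivity) (norm_nonneg _) two_ne_zero).1 h2

lemma ne_zero_of_small {z : ℂ} (hz : ‖z‖ ≤ 1 / 2) : 1 + z ≠ 0 := by
  intro h
  have : z = -1 := by linear_combination h
  rw [this, norm_neg, norm_one] at hz
  norm_num at hz

lemma coord0 {z : ℂ} (hz : 1 + z ≠ 0) : phi (1 + z) 0 - 3 = z ^ 2 * (3 + 2 * z) / (1 + z) ^ 2 := by
  rw [phi_zero_coord]
  field_simp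
  ring

lemma coord1 {z : ℂ} (hz : 1 + z ≠ 0) : phi (1 + z) 1 - 3 = z ^ 2 * (3 + z) / (1 + z) := by
  rw [phi_one_coord]
  field_simp
  ring

lemma G_mono (s : ℝ) (hs : 0 ≤ s) (hs1 : s ≤ 1) (z : ℂ) (hz : ‖z‖ ≤ 1 / 2) :
    G (1 + s * z) ≤ G (1 + z) := by
  have hsz : ‖(s : ℂ) * z‖ ≤ 1 / 2 := by
    rw [norm_mul, Complex.norm_real, Real.norm_of_nonneg hs]
    nlinarith [norm_nonneg z]
  have n1 := ne_zero_of_small hz
  have n2 := ne_zero_of_small hsz
  have p1 : 0 < ‖1 + z‖ := norm_pos_iff.2 n1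
  have p2 : 0 < ‖1 + s * z‖ := norm_pos_iff.2 n2
  unfold G
  rw [coord0 n1, coord0 n2, coord1 n1, coord1 n2]
  have hns : ‖(s : ℂ)‖ = s := by rw [Complex.norm_real, Real.norm_of_nonneg hs]
  have k0 : ‖(s * z) ^ 2 * (3 + 2 * (s * z)) / (1 + s * z) ^ 2‖ ≤
      ‖z ^ 2 * (3 + 2 * z) / (1 + z) ^ 2‖ := by
    rw [norm_div, norm_div, norm_mul, norm_mul, norm_pow, norm_pow, norm_pow, norm_pow, norm_mul, hns]
    rw [div_le_div_iff₀ (by positivity) (by positivity)]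
    have h2z : ‖2 * z‖ ≤ 1 := by rw [norm_mul]; norm_num; linarith
    have i1 := ineq_a s hs hs1 (2 * z) h2z
    have i2 := ineq_b s hs hs1 z hz
    have i3 : (s : ℂ) * (2 * z) = 2 * (s * z) := by ring
    rw [i3] at i1
    have i4 := mul_le_mul i1 i2 (by positivity) (norm_nonneg _)
    have i5 := mul_le_mul_of_nonneg_left i4 (by positivity : 0 ≤ ‖z‖ ^ 2)
    calc (s * ‖z‖) ^ 2 * ‖3 + 2 * (s * z)‖ * ‖1 + z‖ ^ 2 =
        ‖z‖ ^ 2 * (s * ‖3 + 2 * (s * z)‖ * (s * ‖1 + z‖ ^ 2)) := by ring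
      _ ≤ ‖z‖ ^ 2 * (‖3 + 2 * z‖ * ‖1 + s * z‖ ^ 2) := i5
      _ = _ := by ring
  have k1 : ‖(s * z) ^ 2 * (3 + s * z) / (1 + s * z)‖ ≤ ‖z ^ 2 * (3 + z) / (1 + z)‖ := by
    rw [norm_div, norm_div, norm_mul, norm_mul, norm_pow, norm_pow, norm_mul, hns]
    rw [div_le_div_iff₀ (by positivity) (by positivity)]
    have i1 := ineq_a s hs hs1 z (by linarith)
    have i2 := ineq_c s hs hs1 z hz
    have i4 := mul_le_mul i1 i2 (by positivity) (norm_nonneg _)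
    have i5 := mul_le_mul_of_nonneg_left i4 (by positivity : 0 ≤ ‖z‖ ^ 2)
    calc (s * ‖z‖) ^ 2 * ‖3 + s * z‖ * ‖1 + z‖ =
        ‖z‖ ^ 2 * (s * ‖3 + s * z‖ * (s * ‖1 + z‖)) := by ring
      _ ≤ ‖z‖ ^ 2 * (‖3 + z‖ * ‖1 + s * z‖) := i5
      _ = _ := by ring
  have := pow_le_pow_left₀ (norm_nonneg _) k0 2
  have := pow_le_pow_left₀ (norm_nonneg _) k1 2
  linarith

/-- Points of the curve close to the cusp have parameter close to `1`. -/
lemma close_of_G {t : ℂ} (ht : t ≠ 0) {δ : ℝ} (hδ0 : 0 < δ) (hδ : δ < 1 / 16) (h : G t < δ ^ 2) :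
    ‖t - 1‖ < 1 / 2 := by
  by_contra hcon
  push Not at hcon
  unfold G at h
  have p := norm_pos_iff.2 ht
  have h0 : ‖phi t 0 - 3‖ < δ := by
    have : ‖phi t 0 - 3‖ ^ 2 < δ ^ 2 := by nlinarith [sq_nonneg ‖phi t 1 - 3‖]
    exact lt_of_pow_lt_pow_left₀ 2 hδ0.le this
  have h1 : ‖phi t 1 - 3‖ < δ := by
    have : ‖phi t 1 - 3‖ ^ 2 < δ ^ 2 := by nlinarith [sq_nonneg ‖phi t 0 - 3‖]
    exact lt_of_pow_lt_pow_left₀ 2 hδ0.le this
  have c0 : (phi t 0 - 3) * t ^ 2 = (t - 1) ^ 2 * (2 * t + 1) := by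
    rw [phi_zero_coord]; field_simp; ring
  have c1 : (phi t 1 - 3) * t = (t - 1) ^ 2 * (t + 2) := by
    rw [phi_one_coord]; field_simp; ring
  have d0 := congrArg norm c0
  have d1 := congrArg norm c1
  rw [norm_mul, norm_mul, norm_pow, norm_pow] at d0
  rw [norm_mul, norm_mul, norm_pow] at d1
  have q : 1 / 4 ≤ ‖t - 1‖ ^ 2 := by nlinarith
  have f0 : ‖2 * t + 1‖ ≤ ‖t‖ ^ 2 / 4 := by
    have : ‖t - 1‖ ^ 2 * ‖2 * t + 1‖ ≤ 1 / 16 * ‖t‖ ^ 2 := by
      rw [← d0]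
      exact mul_le_mul_of_nonneg_right (by linarith) (by positivity)
    nlinarith [norm_nonneg (2 * t + 1)]
  have f1 : ‖t + 2‖ ≤ ‖t‖ / 4 := by
    have : ‖t - 1‖ ^ 2 * ‖t + 2‖ ≤ 1 / 16 * ‖t‖ := by
      rw [← d1]
      exact mul_le_mul_of_nonneg_right (by linarith) (by positivity)
    nlinarith [norm_nonneg (t + 2)]
  have g0 : 2 * ‖t‖ - 1 ≤ ‖2 * t + 1‖ := by
    have := norm_sub_norm_le (2 * t) (-1)
    rw [sub_neg_eq_add, norm_neg, norm_one, norm_mul] at this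
    simpa using this
  have g1 : ‖t‖ - 2 ≤ ‖t + 2‖ := by
    have := norm_sub_norm_le t (-2)
    rw [sub_neg_eq_add, norm_neg] at this
    simpa using this
  have g2 : 2 - ‖t‖ ≤ ‖t + 2‖ := by
    have := norm_sub_norm_le 2 (-t)
    rw [sub_neg_eq_add, norm_neg, add_comm] at this
    simpa using this
  nlinarith

/-- The curve near the cusp `(3, 3)`, without the cusp, is connected. -/
lemma preconn_one (δ : ℝ) (hδ0 : 0 < δ) (hδ : δ < 1 / 16) :
    IsPreconnected {q : Fin 2 → ℂ | MvPolynomial.eval q F = 0 ∧ q ≠ phi 1 ∧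
            ‖q 0 - phi 1 0‖ ^ 2 + ‖q 1 - phi 1 1‖ ^ 2 < δ ^ 2} := by
  have e0 : phi 1 0 = 3 := by rw [phi_zero_coord]; norm_num
  have e1 : phi 1 1 = 3 := by rw [phi_one_coord]; norm_num
  rw [e0, e1]
  set W : Set ℂ := {w : ℂ | ‖Complex.exp w‖ < 1 / 2 ∧ G (1 + Complex.exp w) < δ ^ 2} with hW
  have hdown : ∀ w ∈ W, ∀ a : ℝ, 0 ≤ a → w - a ∈ W := by
    rintro w ⟨hw1, hw2⟩ a ha
    have hexp : Complex.exp (w - a) = (Real.exp (-a) : ℝ) * Complex.exp w := by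
      rw [Complex.ofReal_exp, ← Complex.exp_add]; congr 1; push_cast; ring
    have s0 : 0 ≤ Real.exp (-a) := (Real.exp_pos _).le
    have s1 : Real.exp (-a) ≤ 1 := Real.exp_le_one_iff.2 (by linarith)
    constructor
    · rw [hexp, norm_mul, Complex.norm_real, Real.norm_of_nonneg s0]
      nlinarith [norm_nonneg (Complex.exp w)]
    · rw [hexp]
      exact (G_mono _ s0 s1 _ hw1.le).trans_lt hw2
  have hcont : ContinuousOn (fun w : ℂ => phi (1 + Complex.exp w)) {w | ‖Complex.exp w‖ < 1 / 2} := by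
    intro w hw
    apply ContinuousAt.continuousWithinAt
    exact ContinuousAt.comp (g := phi) (f := fun w : ℂ => 1 + Complex.exp w)
      (continuousAt_phi (ne_zero_of_small (le_of_lt hw))) (by fun_prop)
  -- a half plane inside W
  obtain ⟨R, hR⟩ : ∃ R : ℝ, ∀ w : ℂ, w.re < R → w ∈ W := by
    have hG1 : G 1 = 0 := by unfold G; rw [e0, e1]; simp
    have hcG : ContinuousAt (fun z : ℂ => G (1 + z)) 0 := by
      have h1 : ContinuousAt (fun z : ℂ => phi (1 + z)) 0 := by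
        apply ContinuousAt.comp (g := phi) (f := fun z : ℂ => 1 + z) (continuousAt_phi (by simp))
          (by fun_prop)
      have h2 : ContinuousAt (fun z : ℂ => phi (1 + z) 0) 0 := (continuousAt_pi.1 h1) 0
      have h3 : ContinuousAt (fun z : ℂ => phi (1 + z) 1) 0 := (continuousAt_pi.1 h1) 1
      unfold G
      fun_prop
    have hev : ∀ᶠ z in 𝓝 (0 : ℂ), G (1 + z) < δ ^ 2 := by
      have := hcG.tendsto
      rw [add_zero, hG1] at this
      exact this.eventually_lt_const (by positivity)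
    obtain ⟨ρ, hρ, hball⟩ := Metric.eventually_nhds_iff.1 hev
    refine ⟨min (Real.log (1 / 2)) (Real.log ρ), fun w hw => ?_⟩
    have hn : ‖Complex.exp w‖ = Real.exp w.re := Complex.norm_exp w
    constructor
    · rw [hn]
      calc Real.exp w.re < Real.exp (Real.log (1/2)) := Real.exp_lt_exp.2 (hw.trans_le (min_le_left _ _))
        _ = 1 / 2 := Real.exp_log (by norm_num)
    · apply hball
      rw [dist_zero_right, hn]
      calc Real.exp w.re < Real.exp (Real.log ρ) := Real.exp_lt_exp.2 (hw.trans_le (min_le_right _ _))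
        _ = ρ := Real.exp_log hρ
  have hWpre : IsPreconnected W := by
    set H : Set ℂ := {w : ℂ | w.re < R} with hH
    have hHpre : IsPreconnected H := (convex_halfSpace_re_lt R).isPreconnected
    have hHW : H ⊆ W := fun w hw => hR w hw
    refine isPreconnected_of_forall (((R - 1 : ℝ)) : ℂ) ?_
    intro w hw
    have hx : (((R - 1 : ℝ)) : ℂ) ∈ H := by
      show ((((R - 1 : ℝ)) : ℂ)).re < R
      rw [Complex.ofReal_re]; linarith
    refine ⟨H ∪ (fun a : ℝ => w - a) '' Ici 0, ?_, Or.inl hx, Or.inr ⟨0, by simp, by simp⟩, ?_⟩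
    · apply union_subset hHW
      rintro _ ⟨a, ha, rfl⟩
      exact hdown w hw a ha
    · have hray : IsPreconnected ((fun a : ℝ => w - a) '' Ici (0 : ℝ)) :=
        isPreconnected_Ici.image _ (by fun_prop)
      refine hHpre.union' ?_ hray
      set b : ℝ := max 0 (w.re - R + 1) with hb
      refine ⟨w - b, ?_, ⟨b, Set.mem_Ici.2 (le_max_left _ _), rfl⟩⟩
      show (w - b).re < R
      rw [Complex.sub_re, Complex.ofReal_re]
      have : w.re - R + 1 ≤ b := le_max_right _ _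
      linarith
  have himg : {q : Fin 2 → ℂ | MvPolynomial.eval q F = 0 ∧ q ≠ phi 1 ∧
            ‖q 0 - 3‖ ^ 2 + ‖q 1 - 3‖ ^ 2 < δ ^ 2} = (fun w : ℂ => phi (1 + Complex.exp w)) '' W := by
    ext q
    constructor
    · rintro ⟨hq1, hq2, hq3⟩
      obtain ⟨t, ht, rfl⟩ := exists_param q hq1
      have ht1 : t ≠ 1 := by rintro rfl; exact hq2 rfl
      have hG : G t < δ ^ 2 := hq3
      have hclose := close_of_G ht hδ0 hδ hG
      have hne : t - 1 ≠ 0 := sub_ne_zero.2 ht1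
      have hexp : Complex.exp (Complex.log (t - 1)) = t - 1 := Complex.exp_log hne
      have h1t : 1 + (t - 1) = t := by ring
      refine ⟨Complex.log (t - 1), ⟨by rw [hexp]; exact hclose, by rw [hexp, h1t]; exact hG⟩, ?_⟩
      simp only
      rw [hexp, h1t]
    · rintro ⟨w, ⟨hw1, hw2⟩, rfl⟩
      have hne : 1 + Complex.exp w ≠ 0 := ne_zero_of_small hw1.le
      refine ⟨eval_phi hne, ?_, hw2⟩
      intro h
      have := phi_inj hne one_ne_zero h
      exact Complex.exp_ne_zero w (by linear_combination this)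
  rw [himg]
  exact hWpre.image _ (hcont.mono fun w hw => hw.1)

end Pool.Agent.U216.Delt
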