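import Mathlib

/-!
The equation of the deltoid (three-cuspidal quartic) is irreducible.
-/

set_option autoImplicit false

namespace Pool.Agent.U216.Delt

open Polynomial

/-- The equation of the deltoid. -/
noncomputable def F : MvPolynomial (Fin 2) ℂ :=
  MvPolynomial.X 0 ^ 2 * MvPolynomial.X 1 ^ 2 - 4 * MvPolynomial.X 0 ^ 3
    - 4 * MvPolynomial.X 1 ^ 3 + 18 * (MvPolynomial.X 0 * MvPolynomial.X 1) - 27

lemma eval_F (z : Fin 2 → ℂ) : MvPolynomial.eval z F =
    z 0 ^ 2 * z 1 ^ 2 - 4 * z 0 ^ 3 - 4 * z 1 ^ 3 + 18 * (z 0 * z 1) - 27 := by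
  simp [F]

lemma coef7 (c0 c1 c2 c3 c4 c5 c6 : ℂ) (h : C c6 * X ^ 6 + C c5 * X ^ 5 + C c4 * X ^ 4 +
    C c3 * X ^ 3 + C c2 * X ^ 2 + C c1 * X + C c0 = (0 : ℂ[X])) :
    c6 = 0 ∧ c5 = 0 ∧ c4 = 0 ∧ c3 = 0 := by
  have k6 := congrArg (fun p => coeff p 6) h
  have k5 := congrArg (fun p => coeff p 5) h
  have k4 := congrArg (fun p => coeff p 4) h
  have k3 := congrArg (fun p => coeff p 3) h
  simp at k6 k5 k4 k3
  exact ⟨k6, k5, k4, k3⟩

/-- No polynomial section. -/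
lemma no_root (r : ℂ[X]) :
    X ^ 2 * r ^ 2 - 4 * r ^ 3 - 4 * X ^ 3 + 18 * (r * X) - 27 ≠ 0 := by
  intro h
  have hk : r.natDegree ≤ 2 := by
    by_contra hk
    push Not at hk
    have h1 : (4 * r ^ 3 : ℂ[X]) = X ^ 2 * r ^ 2 - 4 * X ^ 3 + 18 * (r * X) - 27 := by
      linear_combination -h
    have h2 : (4 * r ^ 3 : ℂ[X]).natDegree = 3 * r.natDegree := by
      have : (4 * r ^ 3 : ℂ[X]) = C 4 * r ^ 3 := by rw [map_ofNat]
      rw [this, natDegree_C_mul (by norm_num), natDegree_pow]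
    have h3 : (X ^ 2 * r ^ 2 - 4 * X ^ 3 + 18 * (r * X) - 27 : ℂ[X]).natDegree ≤
        2 * r.natDegree + 2 := by
      have e1 : (X ^ 2 * r ^ 2 : ℂ[X]).natDegree ≤ 2 * r.natDegree + 2 := by
        refine natDegree_mul_le.trans ?_
        rw [natDegree_X_pow, natDegree_pow]; omega
      have e2 : (4 * X ^ 3 : ℂ[X]).natDegree ≤ 2 * r.natDegree + 2 := by
        have : (4 * X ^ 3 : ℂ[X]) = C 4 * X ^ 3 := by rw [map_ofNat]
        rw [this]
        refine (natDegree_C_mul_X_pow_le 4 3).trans ?_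
        omega
      have e3 : (18 * (r * X) : ℂ[X]).natDegree ≤ 2 * r.natDegree + 2 := by
        have : (18 * (r * X) : ℂ[X]) = C 18 * (r * X) := by rw [map_ofNat]
        rw [this]
        refine (natDegree_C_mul_le _ _).trans ?_
        refine natDegree_mul_le.trans ?_
        rw [natDegree_X]; omega
      have e4 : (27 : ℂ[X]).natDegree ≤ 2 * r.natDegree + 2 := by
        have : (27 : ℂ[X]) = C 27 := by rw [map_ofNat]
        rw [this, natDegree_C]; omega
      refine (natDegree_sub_le_of_le (natDegree_add_le_of_le (natDegree_sub_le_of_le e1 e2) e3) e4).trans ?_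
      simp
    rw [← h1, h2] at h3
    omega
  obtain ⟨a, b, c, rfl⟩ : ∃ a b c : ℂ, r = C a * X ^ 2 + C b * X + C c := by
    refine ⟨r.coeff 2, r.coeff 1, r.coeff 0, ?_⟩
    conv_lhs => rw [r.as_sum_range_C_mul_X_pow' (n := 3) (by omega)]
    simp [Finset.sum_range_succ]
    ring
  have key : C (a ^ 2 - 4 * a ^ 3) * X ^ 6 + C (2 * a * b - 12 * a ^ 2 * b) * X ^ 5 +
      C (b ^ 2 + 2 * a * c - 12 * a * b ^ 2 - 12 * a ^ 2 * c) * X ^ 4 +
      C (2 * b * c - 4 * b ^ 3 - 24 * a * b * c - 4 + 18 * a) * X ^ 3 +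
      C (c ^ 2 - 12 * b ^ 2 * c - 12 * a * c ^ 2 + 18 * b) * X ^ 2 +
      C (18 * c - 12 * b * c ^ 2) * X + C (-4 * c ^ 3 - 27) = (0 : ℂ[X]) := by
    rw [← h]
    simp only [C_add, C_sub, C_mul, C_pow, C_neg, map_ofNat]
    ring
  obtain ⟨k6, k5, k4, k3⟩ := coef7 _ _ _ _ _ _ _ key
  have ha : a = 0 ∨ a = 1 / 4 := by
    have : a ^ 2 * (1 - 4 * a) = 0 := by linear_combination k6
    rcases mul_eq_zero.1 this with h | h
    · left; exact pow_eq_zero_iff (two_ne_zero) |>.1 h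
    · right; linear_combination (-1/4) * h
  rcases ha with rfl | rfl
  · have hb : b = 0 := by
      have : b ^ 2 = 0 := by linear_combination k4
      exact pow_eq_zero_iff (two_ne_zero) |>.1 this
    subst hb
    norm_num at k3
  · have hb : b = 0 := by linear_combination (-4) * k5
    subst hb
    have hc : c = 0 := by linear_combination (-4) * k4
    subst hc
    norm_num at k3

theorem irreducible_F : Irreducible F := by
  have e := MvPolynomial.finSuccEquiv ℂ 1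
  rw [← MulEquiv.irreducible_iff (MvPolynomial.finSuccEquiv ℂ 1).toMulEquiv]
  set R := MvPolynomial (Fin 1) ℂ with hR
  set x : R := MvPolynomial.X 0 with hx
  have hF : (MvPolynomial.finSuccEquiv ℂ 1).toMulEquiv F =
      X ^ 2 * C (x ^ 2) - 4 * X ^ 3 - C (4 * x ^ 3) + 18 * (X * C x) - 27 := by
    show (MvPolynomial.finSuccEquiv ℂ 1) F = _
    have h1 : (1 : Fin 2) = Fin.succ 0 := rfl
    simp only [F, map_sub, map_add, map_mul, map_pow, map_ofNat, MvPolynomial.finSuccEquiv_X_zero]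
    rw [h1, MvPolynomial.finSuccEquiv_X_succ]
  rw [hF]
  set G : R[X] := X ^ 3 + (C (-(MvPolynomial.C (1/4) * x ^ 2)) * X ^ 2 +
    C (-(MvPolynomial.C (9/2) * x)) * X + C (x ^ 3 + MvPolynomial.C (27/4))) with hG
  have hFG : (X ^ 2 * C (x ^ 2) - 4 * X ^ 3 - C (4 * x ^ 3) + 18 * (X * C x) - 27 : R[X]) =
      C (MvPolynomial.C (-4)) * G := by
    have e1 : (C (MvPolynomial.C (-4 : ℂ)) : R[X]) = -4 := by
      rw [map_neg, map_neg]; simp only [map_ofNat]
    have e2 : (C (MvPolynomial.C (-4 : ℂ)) : R[X]) * C (MvPolynomial.C (1/4)) = -1 := by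
      rw [← C_mul, ← MvPolynomial.C_mul]; norm_num
    have e3 : (C (MvPolynomial.C (-4 : ℂ)) : R[X]) * C (MvPolynomial.C (9/2)) = -18 := by
      rw [← C_mul, ← MvPolynomial.C_mul]; norm_num; simp only [map_ofNat]
    have e4 : (C (MvPolynomial.C (-4 : ℂ)) : R[X]) * C (MvPolynomial.C (27/4)) = -27 := by
      rw [← C_mul, ← MvPolynomial.C_mul]; norm_num; simp only [map_ofNat]
    rw [hG]
    simp only [C_add, C_neg, C_mul, C_pow, map_ofNat]
    linear_combination (-X ^ 3 - C x ^ 3) * e1 + (C x ^ 2 * X ^ 2) * e2 + (C x * X) * e3 - e4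
  have hunit : IsUnit (C (MvPolynomial.C (-4 : ℂ)) : R[X]) := by
    refine IsUnit.map _ (IsUnit.map _ ?_)
    exact isUnit_iff_ne_zero.2 (by norm_num)
  rw [hFG, irreducible_isUnit_mul hunit]
  have hdeg2 : (C (-(MvPolynomial.C (1/4) * x ^ 2)) * X ^ 2 +
    C (-(MvPolynomial.C (9/2) * x)) * X + C (x ^ 3 + MvPolynomial.C (27/4)) : R[X]).degree < 3 :=
    degree_quadratic_lt
  have hmon : G.Monic := monic_X_pow_add (n := 3) hdeg2
  have hdeg : G.natDegree = 3 := by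
    have h1 : G.degree = 3 := by
      rw [hG, degree_add_eq_left_of_degree_lt (by rw [degree_X_pow]; exact hdeg2), degree_X_pow]
      rfl
    exact natDegree_eq_of_degree_eq_some h1
  rw [hmon.irreducible_iff_roots_eq_zero_of_degree_le_three (by omega) (by omega)]
  rw [Multiset.eq_zero_iff_forall_notMem]
  intro r hr
  have hr1 : G.eval r = 0 := isRoot_of_mem_roots hr
  rw [hG] at hr1
  simp only [eval_add, eval_mul, eval_C, eval_pow, eval_X] at hr1
  let ψ : R →+* ℂ[X] := MvPolynomial.eval₂Hom (C : ℂ →+* ℂ[X]) (fun _ => X)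
  have hψx : ψ x = X := MvPolynomial.eval₂Hom_X' _ _ _
  have hψC : ∀ c : ℂ, ψ (MvPolynomial.C c) = C c := fun c => MvPolynomial.eval₂Hom_C _ _ _
  apply no_root (ψ r)
  have h2 := congrArg ψ hr1
  simp only [map_add, map_mul, map_pow, map_neg, hψx, hψC, map_zero] at h2
  have c1 : (C (1/4 : ℂ) : ℂ[X]) * 4 = 1 := by
    have h4 : (4 : ℂ[X]) = C 4 := by rw [map_ofNat]
    rw [h4, ← C_mul]; norm_num
  have c2 : (C (9/2 : ℂ) : ℂ[X]) * 4 = 18 := by
    have h4 : (4 : ℂ[X]) = C 4 := by rw [map_ofNat]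
    have h5 : (18 : ℂ[X]) = C 18 := by rw [map_ofNat]
    rw [h4, h5, ← C_mul]; norm_num
  have c3 : (C (27/4 : ℂ) : ℂ[X]) * 4 = 27 := by
    have h4 : (4 : ℂ[X]) = C 4 := by rw [map_ofNat]
    have h5 : (27 : ℂ[X]) = C 27 := by rw [map_ofNat]
    rw [h4, h5, ← C_mul]; norm_num
  linear_combination (-4) * h2 - (X ^ 2 * ψ r ^ 2) * c1 - (X * ψ r) * c2 + c3

end Pool.Agent.U216.Delt
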