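import Pool.Agent.U216.Delt.Irr

/-!
The deltoid is homeomorphic to the punctured plane.
-/

set_option autoImplicit false

namespace Pool.Agent.U216.Delt

open Set Filter Topology

/-- The parametrisation of the deltoid. -/
noncomputable def phi (t : ℂ) : Fin 2 → ℂ := ![2 * t + t⁻¹ ^ 2, 2 * t⁻¹ + t ^ 2]

lemma phi_zero_coord (t : ℂ) : phi t 0 = 2 * t + t⁻¹ ^ 2 := rfl
lemma phi_one_coord (t : ℂ) : phi t 1 = 2 * t⁻¹ + t ^ 2 := rfl

lemma eval_phi {t : ℂ} (ht : t ≠ 0) : MvPolynomial.eval (phi t) F = 0 := by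
  rw [eval_F, phi_zero_coord, phi_one_coord]
  field_simp
  ring

/-- every point is on the image -/
lemma exists_param (z : Fin 2 → ℂ) (hz : MvPolynomial.eval z F = 0) : ∃ t : ℂ, t ≠ 0 ∧ phi t = z := by
  rw [eval_F] at hz
  set x := z 0 with hx
  set y := z 1 with hy
  obtain ⟨a, ha⟩ : ∃ a : ℂ, a ^ 3 - x * a ^ 2 + y * a - 1 = 0 := by
    have hd : (Polynomial.C 1 * Polynomial.X ^ 3 + Polynomial.C (-x) * Polynomial.X ^ 2 +
        Polynomial.C y * Polynomial.X + Polynomial.C (-1) : Polynomial ℂ).degree ≠ 0 := by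
      rw [Polynomial.degree_cubic one_ne_zero]; decide
    obtain ⟨a, ha⟩ := IsAlgClosed.exists_root _ hd
    refine ⟨a, ?_⟩
    simp only [Polynomial.IsRoot.def, Polynomial.eval_add, Polynomial.eval_mul, Polynomial.eval_C,
      Polynomial.eval_pow, Polynomial.eval_X] at ha
    linear_combination ha
  obtain ⟨b, hb⟩ : ∃ b : ℂ, b ^ 2 - (x - a) * b + (y - a * (x - a)) = 0 := by
    have hd : (Polynomial.C 1 * Polynomial.X ^ 2 + Polynomial.C (-(x - a)) * Polynomial.X +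
        Polynomial.C (y - a * (x - a)) : Polynomial ℂ).degree ≠ 0 := by
      rw [Polynomial.degree_quadratic one_ne_zero]; decide
    obtain ⟨a, ha⟩ := IsAlgClosed.exists_root _ hd
    refine ⟨a, ?_⟩
    simp only [Polynomial.IsRoot.def, Polynomial.eval_add, Polynomial.eval_mul, Polynomial.eval_C,
      Polynomial.eval_pow, Polynomial.eval_X] at ha
    linear_combination ha
  obtain ⟨c, hc⟩ : ∃ c : ℂ, c = x - a - b := ⟨_, rfl⟩
  have e1 : x = a + b + c := by rw [hc]; ring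
  have e2 : y = a * b + a * c + b * c := by rw [hc]; linear_combination hb
  have e3 : a * b * c = 1 := by
    rw [e1, e2] at ha
    linear_combination ha
  have hdisc : (a - b) ^ 2 * ((b - c) ^ 2 * (c - a) ^ 2) = 0 := by
    rw [← hz, e1, e2]
    linear_combination (-4 * (a + b + c) ^ 3 + 18 * (a + b + c) * (a * b + a * c + b * c) -
      27 * (a * b * c + 1)) * e3
  -- a double root `t` and the third root `s`
  obtain ⟨t, s, h1, h2, h3⟩ : ∃ t s : ℂ, x = 2 * t + s ∧ y = t ^ 2 + 2 * (t * s) ∧ t ^ 2 * s = 1 := by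
    rcases mul_eq_zero.1 hdisc with h | h
    · have hab : a = b := sub_eq_zero.1 (pow_eq_zero_iff two_ne_zero |>.1 h)
      subst hab
      exact ⟨a, c, by rw [e1]; ring, by rw [e2]; ring, by linear_combination e3⟩
    · rcases mul_eq_zero.1 h with h | h
      · have hab : b = c := sub_eq_zero.1 (pow_eq_zero_iff two_ne_zero |>.1 h)
        rw [← hab] at e1 e2 e3
        exact ⟨b, a, by rw [e1]; ring, by rw [e2]; ring, by linear_combination e3⟩
      · have hab : c = a := sub_eq_zero.1 (pow_eq_zero_iff two_ne_zero |>.1 h)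
        rw [hab] at e1 e2 e3
        exact ⟨a, b, by rw [e1]; ring, by rw [e2]; ring, by linear_combination e3⟩
  have ht : t ≠ 0 := by
    rintro rfl
    simp at h3
  have hs : s = t⁻¹ ^ 2 := by
    field_simp
    linear_combination h3
  refine ⟨t, ht, ?_⟩
  funext i
  fin_cases i
  · show 2 * t + t⁻¹ ^ 2 = z 0
    rw [← hx, h1, hs]
  · show 2 * t⁻¹ + t ^ 2 = z 1
    rw [← hy, h2, hs]
    field_simp
    ring

lemma phi_inj {t s : ℂ} (ht : t ≠ 0) (hs : s ≠ 0) (h : phi t = phi s) : t = s := by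
  have h0 : 2 * t + t⁻¹ ^ 2 = 2 * s + s⁻¹ ^ 2 := congrFun h 0
  have h1 : 2 * t⁻¹ + t ^ 2 = 2 * s⁻¹ + s ^ 2 := congrFun h 1
  obtain ⟨u, hu⟩ : ∃ u : ℂ, u = t⁻¹ := ⟨_, rfl⟩
  obtain ⟨v, hv⟩ : ∃ v : ℂ, v = s⁻¹ := ⟨_, rfl⟩
  have htu : t * u = 1 := by rw [hu]; exact mul_inv_cancel₀ ht
  have hsv : s * v = 1 := by rw [hv]; exact mul_inv_cancel₀ hs
  rw [← hu, ← hv] at h0 h1
  have k1 : (s - t) ^ 2 * (s - u ^ 2) = 0 := by
    have e1 : s ^ 3 - (2 * s + v ^ 2) * s ^ 2 + (2 * v + s ^ 2) * s - 1 = 0 := by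
      linear_combination (1 - s * v) * hsv 
    have e2 : s ^ 3 - (2 * t + u ^ 2) * s ^ 2 + (2 * u + t ^ 2) * s - 1 = (s - t) ^ 2 * (s - u ^ 2) := by
      linear_combination (-2 * s * u + t * u + 1) * htu
    rw [← e2, h0, h1, e1]
  have k2 : (t - s) ^ 2 * (t - v ^ 2) = 0 := by
    have e1 : t ^ 3 - (2 * t + u ^ 2) * t ^ 2 + (2 * u + t ^ 2) * t - 1 = 0 := by
      linear_combination (1 - t * u) * htu
    have e2 : t ^ 3 - (2 * s + v ^ 2) * t ^ 2 + (2 * v + s ^ 2) * t - 1 = (t - s) ^ 2 * (t - v ^ 2) := by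
      linear_combination (-2 * t * v + s * v + 1) * hsv
    rw [← e2, ← h0, ← h1, e1]
  rcases mul_eq_zero.1 k1 with h | h
  · exact (sub_eq_zero.1 (pow_eq_zero_iff two_ne_zero |>.1 h)).symm
  rcases mul_eq_zero.1 k2 with h' | h'
  · exact (sub_eq_zero.1 (pow_eq_zero_iff two_ne_zero |>.1 h'))
  -- s = u^2, t = v^2
  have e1 : s = u ^ 2 := sub_eq_zero.1 h
  have e2 : t = v ^ 2 := sub_eq_zero.1 h'
  have e3 : t ^ 2 * s = 1 := by rw [e1]; linear_combination (t * u + 1) * htu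
  have e4 : s ^ 2 * t = 1 := by rw [e2]; linear_combination (s * v + 1) * hsv
  have e5 : t * s * (t - s) = 0 := by linear_combination e3 - e4
  rcases mul_eq_zero.1 e5 with h6 | h6
  · exact absurd h6 (mul_ne_zero ht hs)
  · exact sub_eq_zero.1 h6

lemma norm_bound {t : ℂ} (ht : t ≠ 0) {M : ℝ} (h : ‖phi t‖ ≤ M) : ‖t‖ ≤ M + 1 ∧ ‖t⁻¹‖ ≤ M + 1 := by
  have h0 : ‖2 * t + t⁻¹ ^ 2‖ ≤ M := (norm_le_pi_norm (phi t) 0).trans h
  have h1 : ‖2 * t⁻¹ + t ^ 2‖ ≤ M := (norm_le_pi_norm (phi t) 1).trans h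
  have hM : 0 ≤ M := (norm_nonneg _).trans h
  have a0 : 2 * ‖t‖ ≤ M + ‖t⁻¹‖ ^ 2 := by
    calc 2 * ‖t‖ = ‖(2 * t + t⁻¹ ^ 2) - t⁻¹ ^ 2‖ := by
            rw [add_sub_cancel_right, norm_mul]; simp
      _ ≤ ‖2 * t + t⁻¹ ^ 2‖ + ‖t⁻¹ ^ 2‖ := norm_sub_le _ _
      _ ≤ M + ‖t⁻¹‖ ^ 2 := by rw [norm_pow]; linarith
  have a1 : 2 * ‖t⁻¹‖ ≤ M + ‖t‖ ^ 2 := by
    calc 2 * ‖t⁻¹‖ = ‖(2 * t⁻¹ + t ^ 2) - t ^ 2‖ := by
            rw [add_sub_cancel_right, norm_mul]; simp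
      _ ≤ ‖2 * t⁻¹ + t ^ 2‖ + ‖t ^ 2‖ := norm_sub_le _ _
      _ ≤ M + ‖t‖ ^ 2 := by rw [norm_pow]; linarith
  have h2 : ‖t‖ * ‖t⁻¹‖ = 1 := by rw [← norm_mul, mul_inv_cancel₀ ht, norm_one]
  have p0 : 0 < ‖t‖ := norm_pos_iff.2 ht
  have p1 : 0 < ‖t⁻¹‖ := norm_pos_iff.2 (inv_ne_zero ht)
  rcases le_total 1 ‖t‖ with h3 | h3
  · have h4 : ‖t⁻¹‖ ≤ 1 := by
      rw [norm_inv]; exact inv_le_one_of_one_le₀ h3
    constructor
    · nlinarith
    · linarith
  · have h4 : ‖t‖ ^ 2 ≤ 1 := by nlinarith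
    constructor
    · linarith
    · linarith

lemma continuousAt_phi {t : ℂ} (ht : t ≠ 0) : ContinuousAt phi t := by
  unfold phi
  refine continuousAt_pi.2 fun i => ?_
  fin_cases i
  · show ContinuousAt (fun t : ℂ => 2 * t + t⁻¹ ^ 2) t
    fun_prop (disch := assumption)
  · show ContinuousAt (fun t : ℂ => 2 * t⁻¹ + t ^ 2) t
    fun_prop (disch := assumption)

lemma continuous_phi' : Continuous (fun t : {t : ℂ // t ≠ 0} => phi t) := by
  rw [continuous_iff_continuousAt]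
  intro t
  exact ContinuousAt.comp (g := phi) (continuousAt_phi t.2) continuous_subtype_val.continuousAt

lemma isProperMap_phi : IsProperMap (fun t : {t : ℂ // t ≠ 0} => phi t) := by
  rw [isProperMap_iff_isCompact_preimage]
  refine ⟨continuous_phi', fun K hK => ?_⟩
  obtain ⟨M, hM⟩ := hK.isBounded.exists_norm_le
  have hA : IsCompact {t : {t : ℂ // t ≠ 0} | ‖(t : ℂ)‖ ≤ |M| + 1 ∧ (|M| + 1)⁻¹ ≤ ‖(t : ℂ)‖} := by
    rw [Subtype.isCompact_iff]
    have : (Subtype.val '' {t : {t : ℂ // t ≠ 0} | ‖(t : ℂ)‖ ≤ |M| + 1 ∧ (|M| + 1)⁻¹ ≤ ‖(t : ℂ)‖}) =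
        Metric.closedBall 0 (|M| + 1) ∩ {t : ℂ | (|M| + 1)⁻¹ ≤ ‖t‖} := by
      ext t
      simp only [mem_image, mem_setOf_eq, mem_inter_iff, mem_closedBall_zero_iff]
      constructor
      · rintro ⟨s, hs, rfl⟩; exact hs
      · intro h
        have h0 : t ≠ 0 := by
          rintro rfl
          have : 0 < (|M| + 1)⁻¹ := by positivity
          have := h.2
          rw [norm_zero] at this
          linarith
        exact ⟨⟨t, h0⟩, h, rfl⟩
    rw [this]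
    exact (isCompact_closedBall 0 _).inter_right (isClosed_le continuous_const continuous_norm)
  refine hA.of_isClosed_subset (hK.isClosed.preimage continuous_phi') ?_
  intro t ht
  have h1 : ‖phi t‖ ≤ |M| := (hM _ ht).trans (le_abs_self M)
  obtain ⟨h2, h3⟩ := norm_bound t.2 h1
  refine ⟨h2, ?_⟩
  rw [norm_inv] at h3
  have p0 : 0 < ‖(t : ℂ)‖ := norm_pos_iff.2 t.2
  exact inv_le_of_inv_le₀ p0 h3

/-- The punctured plane is homeomorphic to the curve. -/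
noncomputable def homeo : {t : ℂ // t ≠ 0} ≃ₜ
    ({z : Fin 2 → ℂ | MvPolynomial.eval z F = 0} : Set (Fin 2 → ℂ)) := by
  let e : {t : ℂ // t ≠ 0} ≃ ({z : Fin 2 → ℂ | MvPolynomial.eval z F = 0} : Set (Fin 2 → ℂ)) :=
    Equiv.ofBijective (fun t => ⟨phi t, eval_phi t.2⟩) (by
      constructor
      · intro t s h
        exact Subtype.ext (phi_inj t.2 s.2 (congrArg Subtype.val h))
      · rintro ⟨z, hz⟩
        obtain ⟨t, ht, h⟩ := exists_param z hz
        exact ⟨⟨t, ht⟩, Subtype.ext h⟩)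
  refine e.toHomeomorphOfContinuousClosed ?_ ?_
  · exact continuous_phi'.subtype_mk _
  · intro A hA
    have h1 : IsClosed ((fun t : {t : ℂ // t ≠ 0} => phi t) '' A) := isProperMap_phi.isClosedMap A hA
    have h2 : e '' A = Subtype.val ⁻¹' ((fun t : {t : ℂ // t ≠ 0} => phi t) '' A) := by
      ext z
      constructor
      · rintro ⟨t, ht, rfl⟩
        exact ⟨t, ht, rfl⟩
      · rintro ⟨t, ht, h⟩
        exact ⟨t, ht, Subtype.ext h⟩
    rw [h2]
    exact h1.preimage continuous_subtype_val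

end Pool.Agent.U216.Delt
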